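import Pool.Agent.H76.PS.Defs2

/-!
# Job E2: counting the quadratic characters
-/

set_option autoImplicit false

namespace Pool.Agent.K7.H82.PS

open Pool.Agent.H76.PS
open Pool.Agent.Y715.Gi (QB KK GK i₀_mem gk_fix)
open Pool.Agent.Y715.Nr Pool.Agent.W237.RK
open Pool.Agent.Y715.Df (Cmp)
open Pool.Agent.Z384 (II DD DDs Fld)

/-! ### Signs -/

/-- the sign -/
noncomputable def sg (a : ZMod 2) : QB := if a = 0 then 1 else -1

lemma z01 (a : ZMod 2) : a = 0 ∨ a = 1 := by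
  revert a; decide

lemma sg_zero : sg 0 = 1 := if_pos rfl

lemma sg_one : sg 1 = -1 := if_neg one_ne_zero

lemma sg_add (a b : ZMod 2) : sg (a + b) = sg a * sg b := by
  rcases z01 a with rfl | rfl <;> rcases z01 b with rfl | rfl
  · rw [add_zero, sg_zero, one_mul]
  · rw [zero_add, sg_zero, one_mul]
  · rw [add_zero, sg_zero, mul_one]
  · rw [show (1 + 1 : ZMod 2) = 0 from rfl, sg_zero, sg_one]; ring

lemma sg_inj {x : QB} (hx : x ≠ 0) {a b : ZMod 2} (h : sg a * x = sg b * x) : a = b := by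
  have h1 : sg a = sg b := mul_right_cancel₀ hx h
  rcases z01 a with rfl | rfl <;> rcases z01 b with rfl | rfl
  · rfl
  · rw [sg_zero, sg_one] at h1; norm_num at h1
  · rw [sg_zero, sg_one] at h1; norm_num at h1
  · rfl

variable {s : QB} (U : Subgroup (GK s))

open Classical in
/-- the Kummer character -/
noncomputable def kc (x : QB) (σ : U) : ZMod 2 := if (σ : GK s) x = x then 0 else 1

variable {U}

lemma kc_eq_zero {x : QB} {σ : U} : kc U x σ = 0 ↔ (σ : GK s) x = x := by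
  unfold kc
  split_ifs with h
  · simp [h]
  · simp [h]

lemma kc_sg {x : QB} (h : ∀ σ ∈ U, σ (x ^ 2) = x ^ 2) (σ : U) :
    (σ : GK s) x = sg (kc U x σ) * x := by
  have h1 : ((σ : GK s) x) ^ 2 = x ^ 2 := by rw [← map_pow, h σ σ.2]
  unfold kc
  split_ifs with h2
  · rw [sg_zero, one_mul, h2]
  · rw [sg_one, neg_one_mul]
    exact (sq_eq_sq_iff_eq_or_eq_neg.1 h1).resolve_left h2

lemma sg_fix (σ : GK s) (a : ZMod 2) : σ (sg a) = sg a := by
  unfold sg
  split_ifs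
  · exact map_one σ
  · rw [map_neg, map_one]

lemma kc_uniq {x : QB} (hx : x ≠ 0) (h : ∀ σ ∈ U, σ (x ^ 2) = x ^ 2) {σ : U} {a : ZMod 2}
    (ha : (σ : GK s) x = sg a * x) : kc U x σ = a :=
  sg_inj hx (by rw [← kc_sg h σ, ha])

lemma kc_mul {x : QB} (hx : x ≠ 0) (h : ∀ σ ∈ U, σ (x ^ 2) = x ^ 2) (σ τ : U) :
    kc U x (σ * τ) = kc U x σ + kc U x τ := by
  apply kc_uniq hx h
  show (σ : GK s) ((τ : GK s) x) = _
  rw [kc_sg h τ, map_mul, sg_fix, kc_sg h σ, sg_add]
  ring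

lemma kc_prod_root {x y : QB} (hx : x ≠ 0) (hy : y ≠ 0) (h : ∀ σ ∈ U, σ (x ^ 2) = x ^ 2)
    (h' : ∀ σ ∈ U, σ (y ^ 2) = y ^ 2) (σ : U) : kc U (x * y) σ = kc U x σ + kc U y σ := by
  apply kc_uniq (mul_ne_zero hx hy)
  · intro σ hσ
    rw [mul_pow, map_mul, h σ hσ, h' σ hσ]
  · rw [map_mul, kc_sg h σ, kc_sg h' σ, sg_add]
    ring

lemma kc_one (σ : U) : kc U 1 σ = 0 := kc_eq_zero.2 (map_one _)

/-- additive functions which vanish on an open subgroup are locally constant -/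
lemma lc_of {G : Type} [Group G] [TopologicalSpace G] [IsTopologicalGroup G] {φ : G → ZMod 2}
    (hm : ∀ x y, φ (x * y) = φ x + φ y) {W : Set G} (hW : IsOpen W) (h1 : (1 : G) ∈ W)
    (h : ∀ w ∈ W, φ w = 0) : IsLocallyConstant φ := by
  refine (IsLocallyConstant.iff_exists_open _).2 fun g => ?_
  refine ⟨(fun x => g⁻¹ * x) ⁻¹' W, hW.preimage (continuous_const.mul continuous_id), by simpa using h1,
    fun x hx => ?_⟩
  have h2 := h _ hx
  have h3 := hm g (g⁻¹ * x)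
  rw [mul_inv_cancel_left, h2, add_zero] at h3
  exact h3

/-- the stabilisers are open -/
lemma stab_open (x : QB) : IsOpen {σ : GK s | σ x = x} := by
  have hfd : FiniteDimensional (KK s) (IntermediateField.adjoin (KK s) {x}) :=
    IntermediateField.adjoin.finiteDimensional (Algebra.IsIntegral.isIntegral x)
  have h := IntermediateField.fixingSubgroup_isOpen (IntermediateField.adjoin (KK s) {x})
  have e : {σ : GK s | σ x = x} =
      ((IntermediateField.adjoin (KK s) {x}).fixingSubgroup : Set (GK s)) := by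
    ext σ
    constructor
    · intro hσ
      show σ ∈ (IntermediateField.adjoin (KK s) {x}).fixingSubgroup
      rw [← Subgroup.zpowers_le, ← IntermediateField.le_iff_le, IntermediateField.adjoin_le_iff]
      rintro y hy
      rw [Set.mem_singleton_iff] at hy
      subst hy
      rintro ⟨τ, hτ⟩
      have h3 : τ ∈ MulAction.stabilizer (GK s) y := by
        have h4 : Subgroup.zpowers σ ≤ MulAction.stabilizer (GK s) y :=
          Subgroup.zpowers_le.2 (MulAction.mem_stabilizer_iff.2 hσ)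
        exact h4 hτ
      exact MulAction.mem_stabilizer_iff.1 h3
    · intro hσ
      exact (IntermediateField.mem_fixingSubgroup_iff _ σ).1 hσ x
        (IntermediateField.mem_adjoin_simple_self (KK s) x)
  rw [e]
  exact h

lemma kc_mem {x : QB} (hx : x ≠ 0) (h : ∀ σ ∈ U, σ (x ^ 2) = x ^ 2) : kc U x ∈ HS U := by
  refine ⟨lc_of (kc_mul hx h) (W := {σ : U | (σ : GK s) x = x})
    ((stab_open x).preimage continuous_subtype_val) ?_ ?_, kc_mul hx h⟩
  · show ((1 : U) : GK s) x = x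
    rfl
  · intro σ hσ
    exact kc_eq_zero.2 hσ

/-- products of roots -/
lemma kc_finprod {ι : Type} {x : ι → QB} (hx : ∀ i, x i ≠ 0)
    (h : ∀ i, ∀ σ ∈ U, σ (x i ^ 2) = x i ^ 2) (S : Finset ι) :
    kc U (∏ i ∈ S, x i) = ∑ i ∈ S, kc U (x i) := by
  classical
  induction S using Finset.induction_on with
  | empty =>
    ext σ
    rw [Finset.prod_empty, Finset.sum_empty]
    exact kc_one σ
  | insert i S hi ih =>
    ext σ
    rw [Finset.prod_insert hi, Finset.sum_insert hi, Pi.add_apply, ← ih]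
    refine kc_prod_root (hx i) (Finset.prod_ne_zero_iff.2 fun j _ => hx j) (h i) ?_ σ
    intro τ hτ
    rw [← Finset.prod_pow, map_prod]
    exact Finset.prod_congr rfl fun j _ => h j τ hτ

/-! ### The spaces of characters -/

/-- the characters of `U` which are trivial on `Nf` -/
def XX (U : Subgroup (GK s)) : Submodule (ZMod 2) (U → ZMod 2) where
  carrier := {φ | φ ∈ HS U ∧ ∀ σ : U, (σ : GK s) ∈ Nf s → φ σ = 0}
  add_mem' := by
    rintro φ ψ ⟨h1, h2⟩ ⟨h3, h4⟩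
    exact ⟨add_mem h1 h3, fun σ hσ => by rw [Pi.add_apply, h2 σ hσ, h4 σ hσ, add_zero]⟩
  zero_mem' := ⟨zero_mem _, fun _ _ => rfl⟩
  smul_mem' := by
    rintro a φ ⟨h1, h2⟩
    exact ⟨Submodule.smul_mem _ a h1, fun σ hσ => by rw [Pi.smul_apply, h2 σ hσ, smul_zero]⟩

variable {d : ℕ}

lemma map_zero_HS {G : Type} [Group G] [TopologicalSpace G] {φ : G → ZMod 2} (h : φ ∈ HS G) :
    φ 1 = 0 := by
  have := h.2 1 1
  rw [mul_one] at this
  have h2 : ∀ a : ZMod 2, a = a + a → a = 0 := by decide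
  exact h2 _ this

lemma map_inv_HS {G : Type} [Group G] [TopologicalSpace G] {φ : G → ZMod 2} (h : φ ∈ HS G) (g : G) :
    φ g⁻¹ = φ g := by
  have := h.2 g g⁻¹
  rw [mul_inv_cancel, map_zero_HS h] at this
  have h2 : ∀ a b : ZMod 2, 0 = a + b → b = a := by decide
  exact h2 _ _ this

/-- density -/
lemma dens {ι₀ : QB →ₐ[ℚ] PadicAlgCl 2}
    (hD : ∀ U : Subgroup (GK s), IsOpen (U : Set (GK s)) → Nf s ≤ U →
      ∀ g : GK s, ∃ δ ∈ DDs ι₀, δ⁻¹ * g ∈ U)
    (hU : IsOpen (U : Set (GK s))) (hN : Nf s ≤ U) {φ : U → ZMod 2} (hφ : φ ∈ XX U)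
    (h : ∀ σ : U, (σ : GK s) ∈ DDs ι₀ → φ σ = 0) : φ = 0 := by
  obtain ⟨hφ, hφN⟩ := hφ
  have hφ2 : ∀ x y, φ (x * y) = φ x + φ y := hφ.2
  -- the kernel
  let W' : Subgroup U :=
    { carrier := {σ | φ σ = 0}
      mul_mem' := by
        intro a b ha hb
        show φ (a * b) = 0
        rw [hφ2, ha, hb, add_zero]
      one_mem' := map_zero_HS hφ
      inv_mem' := by
        intro a ha
        show φ a⁻¹ = 0
        rw [map_inv_HS hφ, ha] }
  let W : Subgroup (GK s) := W'.map U.subtype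
  have hWo : IsOpen (W : Set (GK s)) := by
    have h1 : IsOpen (W' : Set U) := hφ.1.isOpen_fiber 0
    exact hU.isOpenEmbedding_subtypeVal.isOpenMap _ h1
  have hWN : Nf s ≤ W := by
    intro σ hσ
    exact ⟨⟨σ, hN hσ⟩, hφN ⟨σ, hN hσ⟩ hσ, rfl⟩
  ext g
  obtain ⟨δ, hδ, w, hw, hw2⟩ := hD W hWo hWN (g : GK s)
  have hw3 : (w : GK s) = δ⁻¹ * g := hw2
  have hδ2 : δ = g * (w : GK s)⁻¹ := by rw [hw3]; group
  have hδU : δ ∈ U := by rw [hδ2]; exact mul_mem g.2 (inv_mem w.2)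
  have e : g = (⟨δ, hδU⟩ : U) * w := by
    apply Subtype.ext
    show (g : GK s) = δ * w
    rw [hw3]; group
  rw [e, hφ2, h ⟨δ, hδU⟩ hδ, zero_add]
  exact hw

/-- restriction to the local Galois group -/
noncomputable def rst (r : Au 2 →* GK s) : (U → ZMod 2) →ₗ[ZMod 2] (U.comap r → ZMod 2) where
  toFun φ v := φ ⟨r v, v.2⟩
  map_add' _ _ := rfl
  map_smul' _ _ := rfl

lemma rst_mem {r : Au 2 →* GK s} (hr : Continuous r) {φ : U → ZMod 2} (hφ : φ ∈ HS U) :
    rst r φ ∈ HS (U.comap r) := by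
  refine ⟨?_, ?_⟩
  · have h1 : IsLocallyConstant φ := hφ.1
    refine h1.comp_continuous (f := fun v : U.comap r => (⟨r v, v.2⟩ : U)) ?_
    exact Continuous.subtype_mk (hr.comp continuous_subtype_val) _
  · intro x y
    show φ ⟨r (x * y : U.comap r), _⟩ = φ _ + φ _
    rw [← hφ.2]
    congr 1
    apply Subtype.ext
    exact map_mul r _ _

/-- the index of the inverse image -/
lemma index_comap {ι₀ : QB →ₐ[ℚ] PadicAlgCl 2}
    (hD : ∀ U : Subgroup (GK s), IsOpen (U : Set (GK s)) → Nf s ≤ U →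
      ∀ g : GK s, ∃ δ ∈ DDs ι₀, δ⁻¹ * g ∈ U)
    (hU : IsOpen (U : Set (GK s))) (hN : Nf s ≤ U) {r : Au 2 →* GK s} (hr : r.range = DDs ι₀) :
    (U.comap r).index = U.index := by
  have hb : Function.Bijective (fun v : Au 2 ⧸ U.comap r => Quotient.liftOn' v
      (fun τ => (QuotientGroup.mk (r τ) : GK s ⧸ U)) (by
        intro a b hab
        rw [QuotientGroup.leftRel_apply] at hab
        refine QuotientGroup.eq.2 ?_
        rw [← map_inv, ← map_mul]
        exact hab)) := by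
    constructor
    · intro a b
      induction a using QuotientGroup.induction_on with
      | H a =>
      induction b using QuotientGroup.induction_on with
      | H b =>
      intro h
      have h1 : (QuotientGroup.mk (r a) : GK s ⧸ U) = QuotientGroup.mk (r b) := h
      rw [QuotientGroup.eq, ← map_inv, ← map_mul] at h1
      exact QuotientGroup.eq.2 h1
    · intro c
      induction c using QuotientGroup.induction_on with
      | H c =>
      obtain ⟨δ, hδ, hδc⟩ := hD U hU hN c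
      rw [← hr] at hδ
      obtain ⟨τ, rfl⟩ := hδ
      exact ⟨QuotientGroup.mk τ, QuotientGroup.eq.2 hδc⟩
  exact Nat.card_eq_of_bijective _ hb

/-- Kummer characters of the `2`-units -/
lemma kum_mem (h4 : ∀ U : Subgroup (GK s), IsOpen (U : Set (GK s)) → Nf s ≤ U → ∀ φ ∈ HS U,
      (∀ (p : ℕ) [Fact p.Prime] (ι : QB →ₐ[ℚ] PadicAlgCl p), p ≠ 2 →
        ∀ σ : U, (σ : GK s) ∈ (II ι : Set (GK s)) → φ σ = 0) →
      ∀ σ : U, (σ : GK s) ∈ Nf s → φ σ = 0) (hD3 : StD3)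
    (hU : IsOpen (U : Set (GK s))) (hN : Nf s ≤ U) {x : QB} (hu : TwoUnit (x ^ 2))
    (hx : ∀ σ ∈ U, σ (x ^ 2) = x ^ 2) : kc U x ∈ XX U := by
  have hx0 : x ≠ 0 := fun h => hu.1 (by rw [h]; ring)
  refine ⟨kc_mem hx0 hx, h4 U hU hN _ (kc_mem hx0 hx) ?_⟩
  intro p _ ι hp σ hσ
  refine kc_eq_zero.2 (hD3 s p ι hp σ hσ x 1 ?_ ?_)
  · simpa using hu
  · simpa using hx σ σ.2

lemma twoUnit_prod {ι : Type} {u : ι → QB} (h : ∀ i, TwoUnit (u i)) (S : Finset ι) :
    TwoUnit (∏ i ∈ S, u i) := by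
  classical
  induction S using Finset.induction_on with
  | empty =>
    rw [Finset.prod_empty]
    refine ⟨one_ne_zero, 0, ?_, ?_⟩
    · rw [pow_zero, one_mul]; exact isIntegral_one
    · rw [pow_zero, one_mul, inv_one]; exact isIntegral_one
  | insert i S hi ih =>
    rw [Finset.prod_insert hi]
    obtain ⟨h1, k, hk, hk'⟩ := h i
    obtain ⟨h2, l, hl, hl'⟩ := ih
    refine ⟨mul_ne_zero h1 h2, k + l, ?_, ?_⟩
    · have e : (2 : QB) ^ (k + l) * (u i * ∏ j ∈ S, u j) = (2 ^ k * u i) * (2 ^ l * ∏ j ∈ S, u j) := by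
        ring
      rw [e]
      exact hk.mul hl
    · have e : (2 : QB) ^ (k + l) * (u i * ∏ j ∈ S, u j)⁻¹ =
          (2 ^ k * (u i)⁻¹) * (2 ^ l * (∏ j ∈ S, u j)⁻¹) := by
        rw [mul_inv]
        ring
      rw [e]
      exact hk'.mul hl'

/-- linear independence over `ZMod 2` -/
lemma lin_indep {V : Type} [AddCommGroup V] [Module (ZMod 2) V] {n : ℕ} {v : Fin n → V}
    (h : ∀ S : Finset (Fin n), ∑ i ∈ S, v i = 0 → S = ∅) : LinearIndependent (ZMod 2) v := by
  classical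
  rw [Fintype.linearIndependent_iff]
  intro g hg
  have e : ∑ i, g i • v i = ∑ i ∈ Finset.univ.filter (fun i => g i = 1), v i := by
    rw [Finset.sum_filter]
    refine Finset.sum_congr rfl fun i _ => ?_
    rcases z01 (g i) with h1 | h1
    · rw [h1, zero_smul, if_neg]
      exact zero_ne_one
    · rw [h1, one_smul, if_pos rfl]
  rw [e] at hg
  have h2 := h _ hg
  intro i
  rcases z01 (g i) with h1 | h1
  · exact h1
  · exfalso
    have h3 : i ∈ Finset.univ.filter (fun i => g i = 1) := Finset.mem_filter.2 ⟨Finset.mem_univ _, h1⟩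
    rw [h2] at h3
    exact absurd h3 (Finset.notMem_empty i)


theorem core (hC : StC) (hDD : StD) (hD3 : StD3) (hE0 : StE0) (hE1 : StE1)
    (hs : s ^ 2 = -(d : QB)) (hF : Fld d) (ι₀ : QB →ₐ[ℚ] PadicAlgCl 2)
    (hU : IsOpen (U : Set (GK s))) (hN : Nf s ≤ U) :
    ∃ r : Au 2 →* GK s, Continuous r ∧ r.range = DDs ι₀ ∧
      Module.finrank (ZMod 2) (XX U) = U.index + 2 ∧
      (∀ ψ ∈ HS (U.comap r), ∃ φ ∈ XX U, rst r φ = ψ) ∧
      ∃ x : Fin (U.index + 2) → QB, (∀ i, TwoUnit (x i ^ 2)) ∧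
        (∀ i, ∀ σ ∈ U, σ (x i ^ 2) = x i ^ 2) ∧
        (∀ φ ∈ XX U, ∃ S : Finset (Fin (U.index + 2)), φ = ∑ i ∈ S, kc U (x i)) := by
  classical
  obtain ⟨_, _, _, h4, h5⟩ := hE0 s d hs hF
  obtain ⟨r, hrc, _, hrr⟩ := hE1 s d hs hF ι₀
  have hV : IsOpen (U.comap r : Set (Au 2)) := hU.preimage hrc
  obtain ⟨hfin, hle⟩ := hC (U.comap r) hV
  rw [index_comap (h5 ι₀) hU hN hrr] at hle
  set f : XX U →ₗ[ZMod 2] HS (U.comap r) :=
    ((rst r).comp (XX U).subtype).codRestrict _ (fun φ => rst_mem hrc φ.2.1) with hf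
  have hfi : Function.Injective f := by
    rw [← LinearMap.ker_eq_bot, LinearMap.ker_eq_bot']
    rintro ⟨φ, hφ⟩ h
    have h1 : rst r φ = 0 := congrArg Subtype.val h
    apply Subtype.ext
    show φ = 0
    refine dens (h5 ι₀) hU hN hφ ?_
    rintro ⟨σ, hσ⟩ hσD
    have hσD' : σ ∈ DDs ι₀ := hσD
    rw [← hrr] at hσD'
    obtain ⟨τ, hτ⟩ := hσD'
    subst hτ
    exact congrFun h1 ⟨τ, hσ⟩
  have hfX : Module.Finite (ZMod 2) (XX U) := Module.Finite.of_injective f hfi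
  have hle2 : Module.finrank (ZMod 2) (XX U) ≤ Module.finrank (ZMod 2) (HS (U.comap r)) :=
    LinearMap.finrank_le_finrank_of_injective hfi
  obtain ⟨u, hu1, hu2, hu3⟩ := hDD s d hs hF U hU
  choose x hx using fun i => IsAlgClosed.exists_pow_nat_eq (u i) two_pos
  have hx2 : ∀ i, ∀ σ ∈ U, σ (x i ^ 2) = x i ^ 2 := fun i σ hσ => by rw [hx i]; exact hu1 i σ hσ
  have hxu : ∀ i, TwoUnit (x i ^ 2) := fun i => by rw [hx i]; exact hu2 i
  have hx0 : ∀ i, x i ≠ 0 := fun i h => (hxu i).1 (by rw [h]; ring)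
  have hkm : ∀ i, kc U (x i) ∈ XX U := fun i => kum_mem h4 hD3 hU hN (hxu i) (hx2 i)
  set v : Fin (U.index + 2) → XX U := fun i => ⟨kc U (x i), hkm i⟩ with hv
  have hvi : LinearIndependent (ZMod 2) v := by
    refine lin_indep fun S hS => hu3 S ⟨∏ i ∈ S, x i, ?_, ?_⟩
    · intro σ hσ
      have h1 : ∑ i ∈ S, kc U (x i) = 0 := by
        have h2 := congrArg (XX U).subtype hS
        rw [map_sum, map_zero] at h2
        exact h2
      rw [← kc_finprod hx0 hx2 S] at h1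
      exact kc_eq_zero.1 (congrFun h1 ⟨σ, hσ⟩)
    · rw [← Finset.prod_pow]
      exact Finset.prod_congr rfl fun i _ => hx i
  have hge := hvi.fintype_card_le_finrank
  rw [Fintype.card_fin] at hge
  have hfr : Module.finrank (ZMod 2) (XX U) = U.index + 2 := by omega
  have hfr2 : Module.finrank (ZMod 2) (XX U) = Module.finrank (ZMod 2) (HS (U.comap r)) := by omega
  have hfs : Function.Surjective f :=
    (LinearMap.injective_iff_surjective_of_finrank_eq_finrank hfr2).1 hfi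
  refine ⟨r, hrc, hrr, hfr, ?_, x, hxu, hx2, ?_⟩
  · intro ψ hψ
    obtain ⟨φ, hφ⟩ := hfs ⟨ψ, hψ⟩
    exact ⟨φ, φ.2, congrArg Subtype.val hφ⟩
  · intro φ hφ
    have hsp : Submodule.span (ZMod 2) (Set.range v) = ⊤ :=
      hvi.span_eq_top_of_card_eq_finrank (by rw [Fintype.card_fin, hfr])
    have h1 : (⟨φ, hφ⟩ : XX U) ∈ Submodule.span (ZMod 2) (Set.range v) := by rw [hsp]; trivial
    obtain ⟨g, hg⟩ := (Submodule.mem_span_range_iff_exists_fun (ZMod 2)).1 h1
    refine ⟨Finset.univ.filter (fun i => g i = 1), ?_⟩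
    have h2 := congrArg (XX U).subtype hg
    rw [map_sum] at h2
    have h3 : φ = ∑ i, g i • kc U (x i) := h2.symm
    rw [h3, Finset.sum_filter]
    refine Finset.sum_congr rfl fun i _ => ?_
    rcases z01 (g i) with h1 | h1
    · rw [h1, zero_smul, if_neg]
      exact zero_ne_one
    · rw [h1, one_smul, if_pos rfl]

/-! ### The quotient -/

section quo

variable (U' : Subgroup (Gs s))

/-- the inverse image -/
noncomputable abbrev pb : Subgroup (GK s) := U'.comap (QuotientGroup.mk' (Nf s))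

/-- the projection -/
noncomputable def pj (σ : pb U') : U' := ⟨QuotientGroup.mk (σ : GK s), σ.2⟩

lemma pj_surj : Function.Surjective (pj U') := by
  rintro ⟨a, ha⟩
  induction a using QuotientGroup.induction_on with
  | H a => exact ⟨⟨a, ha⟩, rfl⟩

lemma pb_open (h : IsOpen (U' : Set (Gs s))) : IsOpen (pb U' : Set (GK s)) :=
  h.preimage QuotientGroup.continuous_mk

lemma pb_le : Nf s ≤ pb U' := by
  intro σ hσ
  show (QuotientGroup.mk σ : Gs s) ∈ U'
  rw [(QuotientGroup.eq_one_iff σ).2 hσ]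
  exact one_mem U'

lemma pj_open (h : IsOpen (U' : Set (Gs s))) : IsOpenMap (pj U') := by
  intro A hA
  have h1 : IsOpen (Subtype.val '' A : Set (GK s)) :=
    (pb_open U' h).isOpenEmbedding_subtypeVal.isOpenMap _ hA
  have h2 : IsOpen ((QuotientGroup.mk : GK s → Gs s) '' (Subtype.val '' A)) :=
    QuotientGroup.isOpenMap_coe _ h1
  have e : pj U' '' A = Subtype.val ⁻¹' ((QuotientGroup.mk : GK s → Gs s) '' (Subtype.val '' A)) := by
    ext a
    constructor
    · rintro ⟨σ, hσ, rfl⟩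
      exact ⟨σ, ⟨σ, hσ, rfl⟩, rfl⟩
    · rintro ⟨_, ⟨σ, hσ, rfl⟩, h3⟩
      exact ⟨σ, hσ, Subtype.ext h3⟩
  rw [e]
  exact h2.preimage continuous_subtype_val

lemma pj_cont : Continuous (pj U') :=
  Continuous.subtype_mk (QuotientGroup.continuous_mk.comp continuous_subtype_val) _

lemma pj_mul (σ τ : pb U') : pj U' (σ * τ) = pj U' σ * pj U' τ := rfl

/-- pull back of characters -/
noncomputable def pbl : (U' → ZMod 2) →ₗ[ZMod 2] (pb U' → ZMod 2) where
  toFun φ σ := φ (pj U' σ)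
  map_add' _ _ := rfl
  map_smul' _ _ := rfl

lemma pbl_mem {φ : U' → ZMod 2} (hφ : φ ∈ HS U') : pbl U' φ ∈ XX (pb U') := by
  refine ⟨⟨hφ.1.comp_continuous (pj_cont U'), fun x y => ?_⟩, fun σ hσ => ?_⟩
  · show φ (pj U' (x * y)) = _
    rw [pj_mul, hφ.2]
    rfl
  · show φ (pj U' σ) = 0
    have e : pj U' σ = 1 := Subtype.ext ((QuotientGroup.eq_one_iff (σ : GK s)).2 hσ)
    rw [e]
    exact map_zero_HS hφ

lemma pbl_surj (h : IsOpen (U' : Set (Gs s))) {ψ : pb U' → ZMod 2} (hψ : ψ ∈ XX (pb U')) :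
    ∃ φ ∈ HS U', pbl U' φ = ψ := by
  obtain ⟨hψ, hψN⟩ := hψ
  choose g hg using pj_surj U'
  have key : ∀ σ, ψ (g (pj U' σ)) = ψ σ := by
    intro σ
    have h1 := hg (pj U' σ)
    have h2 : (QuotientGroup.mk ((g (pj U' σ) : pb U') : GK s) : Gs s) =
      QuotientGroup.mk (σ : GK s) := congrArg Subtype.val h1
    have h3 : ((g (pj U' σ) : pb U') : GK s)⁻¹ * σ ∈ Nf s := QuotientGroup.eq.1 h2
    have h4 : ψ ((g (pj U' σ))⁻¹ * σ) = 0 := hψN _ h3
    have h5 := hψ.2 (g (pj U' σ)) ((g (pj U' σ))⁻¹ * σ)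
    rw [mul_inv_cancel_left, h4, add_zero] at h5
    exact h5.symm
  refine ⟨fun a => ψ (g a), ⟨?_, ?_⟩, ?_⟩
  · intro S
    have e : (fun a => ψ (g a)) ⁻¹' S = pj U' '' (ψ ⁻¹' S) := by
      ext a
      constructor
      · intro ha
        exact ⟨g a, ha, hg a⟩
      · rintro ⟨σ, hσ, rfl⟩
        show ψ (g (pj U' σ)) ∈ S
        rw [key]
        exact hσ
    rw [e]
    exact pj_open U' h _ (hψ.1 S)
  · intro a b
    obtain ⟨σ, rfl⟩ := pj_surj U' a
    obtain ⟨τ, rfl⟩ := pj_surj U' b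
    show ψ (g (pj U' σ * pj U' τ)) = ψ (g (pj U' σ)) + ψ (g (pj U' τ))
    rw [← pj_mul, key, key, key]
    exact hψ.2 σ τ
  · ext σ
    exact key σ

lemma finrank_quo (h : IsOpen (U' : Set (Gs s))) :
    Module.finrank (ZMod 2) (HS U') = Module.finrank (ZMod 2) (XX (pb U')) := by
  let f : HS U' →ₗ[ZMod 2] XX (pb U') :=
    ((pbl U').comp (HS U').subtype).codRestrict _ (fun φ => pbl_mem U' φ.2)
  refine (LinearEquiv.ofBijective f ⟨?_, ?_⟩).finrank_eq
  · rw [← LinearMap.ker_eq_bot, LinearMap.ker_eq_bot']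
    rintro ⟨φ, hφ⟩ h0
    have h1 : pbl U' φ = 0 := congrArg Subtype.val h0
    apply Subtype.ext
    show φ = 0
    ext a
    obtain ⟨σ, rfl⟩ := pj_surj U' a
    exact congrFun h1 σ
  · rintro ⟨ψ, hψ⟩
    obtain ⟨φ, hφ, e⟩ := pbl_surj U' h hψ
    exact ⟨⟨φ, hφ⟩, Subtype.ext e⟩

end quo

/-- **Job E2.** -/
theorem stE2 : StE2 := by
  classical
  intro hC hDD hD3 hE0 hE1 s d hs hF
  obtain ⟨ι₁⟩ : Nonempty (QB →ₐ[ℚ] PadicAlgCl 2) :=
    ⟨IsAlgClosed.lift (R := ℚ) (S := QB) (M := AlgebraicClosure ℚ_[2])⟩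
  refine ⟨?_, ?_, ?_⟩
  · intro U' hU'
    obtain ⟨_, _, _, h1, _⟩ := core hC hDD hD3 hE0 hE1 hs hF ι₁ (pb_open U' hU') (pb_le U')
    rw [finrank_quo U' hU', h1, one_mul]
    congr 1
    exact Subgroup.index_comap_of_surjective U' (QuotientGroup.mk'_surjective (Nf s))
  · intro ι₀ U hU hN φ hφ
    obtain ⟨r, hrc, hrr, _, h2, _⟩ := core hC hDD hD3 hE0 hE1 hs hF ι₀ hU hN
    have hm : ∀ v : U.comap r, r v ∈ (U ⊓ DDs ι₀ : Subgroup (GK s)) := fun v =>
      ⟨v.2, by rw [← hrr]; exact ⟨v, rfl⟩⟩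
    have hps : (fun v : U.comap r => φ ⟨r v, hm v⟩) ∈ HS (U.comap r) := by
      refine ⟨?_, ?_⟩
      · exact hφ.1.comp_continuous (f := fun v : U.comap r => (⟨r v, hm v⟩ :
          (U ⊓ DDs ι₀ : Subgroup (GK s))))
          (Continuous.subtype_mk (hrc.comp continuous_subtype_val) _)
      · intro x y
        show φ ⟨r (x * y : U.comap r), _⟩ = φ _ + φ _
        rw [← hφ.2]
        congr 1
        apply Subtype.ext
        exact map_mul r _ _
    obtain ⟨φ', hφ', e⟩ := h2 _ hps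
    refine ⟨φ', hφ'.1, hφ'.2, ?_⟩
    intro σ h h'
    have h3 : σ ∈ DDs ι₀ := h'.2
    rw [← hrr] at h3
    obtain ⟨τ, rfl⟩ := h3
    exact congrFun e ⟨τ, h⟩
  · intro φ hφ
    have hT : IsOpen ((⊤ : Subgroup (GK s)) : Set (GK s)) := isOpen_univ
    obtain ⟨_, _, _, _, _, x, hx1, hx2, h3⟩ := core hC hDD hD3 hE0 hE1 hs hF ι₁ hT le_top
    have hx0 : ∀ i, x i ≠ 0 := fun i h => (hx1 i).1 (by rw [h]; ring)
    have hps : (fun σ : (⊤ : Subgroup (GK s)) => φ (QuotientGroup.mk (σ : GK s))) ∈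
        XX (⊤ : Subgroup (GK s)) := by
      refine ⟨⟨?_, ?_⟩, ?_⟩
      · exact hφ.1.comp_continuous (f := fun σ : (⊤ : Subgroup (GK s)) =>
          (QuotientGroup.mk (σ : GK s) : Gs s))
          (QuotientGroup.continuous_mk.comp continuous_subtype_val)
      · intro a b
        exact hφ.2 (QuotientGroup.mk (a : GK s)) (QuotientGroup.mk (b : GK s))
      · intro σ hσ
        show φ (QuotientGroup.mk (σ : GK s)) = 0
        rw [(QuotientGroup.eq_one_iff (σ : GK s)).2 hσ]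
        exact map_zero_HS hφ
    obtain ⟨S, hS⟩ := h3 _ hps
    rw [← kc_finprod hx0 hx2 S] at hS
    have hfix : ∀ σ : GK s, σ ((∏ i ∈ S, x i) ^ 2) = (∏ i ∈ S, x i) ^ 2 := by
      intro σ
      rw [← Finset.prod_pow, map_prod]
      exact Finset.prod_congr rfl fun i _ => hx2 i σ trivial
    refine ⟨(∏ i ∈ S, x i) ^ 2, ∏ i ∈ S, x i, ?_, ?_, rfl, ?_⟩
    · have h4 := (InfiniteGalois.mem_bot_iff_fixed (k := KK s) (K := QB) _).2 hfix
      rw [IntermediateField.mem_bot] at h4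
      obtain ⟨b, hb⟩ := h4
      rw [← hb]
      exact b.2
    · rw [← Finset.prod_pow]
      exact twoUnit_prod (u := fun i => x i ^ 2) hx1 S
    · intro σ
      have h5 : φ (QuotientGroup.mk σ) = kc ⊤ (∏ i ∈ S, x i) ⟨σ, trivial⟩ :=
        congrFun hS ⟨σ, trivial⟩
      rw [h5, kc_eq_zero]

end Pool.Agent.K7.H82.PS
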